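import Pool.Agent.P.MP_0c5457_lc.All

set_option autoImplicit false

namespace Pool.Agent.Results.MP_0c5457_lc.NoDeadEnd

open Classical

variable {S : Type} {A B : S → Type}

/-- A history: the past states with both players' actions, most recent first. -/
abbrev Hist (A B : S → Type) : Type := List (Σ s, A s × B s)

/-- A behavioural strategy with action sets `C s`: to each history and current state it assigns a
probability vector on the current action set. -/
def Strategy (A B C : S → Type) [∀ s, Fintype (C s)] : Type :=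
  Hist A B → ∀ s, {x : C s → ℝ // x ∈ stdSimplex ℝ (C s)}

/-- Some sequence of action pairs leads from `s` to a state of `T`. -/
def Reaches (δ : ∀ s, A s → B s → S) (T : Set S) (s : S) : Prop :=
  ∃ t ∈ T, Relation.ReflTransGen (fun u v => ∃ a b, δ u a b = v) s t

/-- Edges of the game graph between states outside both targets. -/
def Edge (δ : ∀ s, A s → B s → S) (T₁ T₂ : Set S) (u v : S) : Prop :=
  u ∉ T₁ ∪ T₂ ∧ v ∉ T₁ ∪ T₂ ∧ ∃ a b, δ u a b = v

/-- Risky states: outside the targets, some target can be reached, no play visits both targets,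
and a dead end (a state from which no target can be reached) can be reached before the targets. -/
def Risky (δ : ∀ s, A s → B s → S) (T₁ T₂ : Set S) (s : S) : Prop :=
  s ∉ T₁ ∪ T₂ ∧ Reaches δ (T₁ ∪ T₂) s ∧ ¬ Reaches δ {z | z ∈ T₁ ∧ Reaches δ T₂ z} s ∧
    ¬ Reaches δ {z | z ∈ T₂ ∧ Reaches δ T₁ z} s ∧
    ∃ d, Relation.ReflTransGen (Edge δ T₁ T₂) s d ∧ ¬ Reaches δ (T₁ ∪ T₂) d

/-- Edges between risky states. -/
def REdge (δ : ∀ s, A s → B s → S) (T₁ T₂ : Set S) (u v : S) : Prop :=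
  Edge δ T₁ T₂ u v ∧ Risky δ T₁ T₂ u ∧ Risky δ T₁ T₂ v

variable [∀ s, Fintype (A s)] [∀ s, Fintype (B s)]

/-- Probability of visiting `T` within `n` further stages, after history `h`, in state `s`. -/
noncomputable def reach (δ : ∀ s, A s → B s → S) (T : Set S) (σ : Strategy A B A)
    (τ : Strategy A B B) : ℕ → Hist A B → S → ℝ
  | 0, _, s => if s ∈ T then 1 else 0
  | n + 1, h, s => if s ∈ T then 1 else
      ∑ a, ∑ b, (σ h s).1 a * (τ h s).1 b * reach δ T σ τ n (⟨s, a, b⟩ :: h) (δ s a b)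

/-- Probability that the play from `s₀` visits `T` at some stage. -/
noncomputable def payoff (δ : ∀ s, A s → B s → S) (T : Set S) (σ : Strategy A B A)
    (τ : Strategy A B B) (s₀ : S) : ℝ :=
  ⨆ n, reach δ T σ τ n [] s₀

/-- Exact Nash equilibrium from `s₀`. -/
def IsNash (δ : ∀ s, A s → B s → S) (T₁ T₂ : Set S) (s₀ : S) (σ : Strategy A B A)
    (τ : Strategy A B B) : Prop :=
  (∀ σ' : Strategy A B A, payoff δ T₁ σ' τ s₀ ≤ payoff δ T₁ σ τ s₀) ∧
    ∀ τ' : Strategy A B B, payoff δ T₂ σ τ' s₀ ≤ payoff δ T₂ σ τ s₀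

open Pool.Agent.P.MP_0c5457_lc

lemma reach_eq (δ : ∀ s, A s → B s → S) (T : Set S) (σ : Strategy A B A) (τ : Strategy A B B)
    (n : ℕ) (h : Hist A B) (s : S) : reach δ T σ τ n h s =
      val (fun h s a b => ⟨s, a, b⟩ :: h) δ T (fun h s => (σ h s).1) (fun h s => (τ h s).1)
        n h s := by
  induction n generalizing h s with
  | zero => rfl
  | succ n ih => simp only [reach, val, ih]

theorem result {S : Type} [Finite S] {A B : S → Type} [∀ s, Fintype (A s)] [∀ s, Fintype (B s)]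
    [∀ s, Nonempty (A s)] [∀ s, Nonempty (B s)] (δ : ∀ s, A s → B s → S) (T₁ T₂ F : Set S)
    (h₁ : ∀ s, ¬ Relation.TransGen (fun u v => REdge δ T₁ T₂ u v ∧ u ∉ F ∧ v ∉ F) s s)
    (h₂ : ∀ f ∈ F, ∀ g ∈ F, Relation.TransGen (REdge δ T₁ T₂) f g →
      Relation.TransGen (REdge δ T₁ T₂) g f → f = g)
    (s₀ : S) : ∃ (σ : Strategy A B A) (τ : Strategy A B B), IsNash δ T₁ T₂ s₀ σ τ := by
  obtain ⟨M, up, m, σ, τ, W₁, W₂, hσ, hτ, hW₁, hW₂, hp₁, hp₂⟩ :=
    cert_all' δ T₁ T₂ F (Edge δ T₁ T₂) (fun _ _ => Iff.rfl) (Risky δ T₁ T₂)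
      (fun s hs => cert_safe δ T₁ T₂ (Edge δ T₁ T₂) (fun _ _ => Iff.rfl)
        fun a b c d e k => not_not.1 fun k' => hs ⟨a, b, c, d, e, k, k'⟩)
      (fun _ h => h.1) (fun s _ => h₁ s) h₂ s₀
  let φ : Hist A B → M := fun h => h.foldr (fun e m => up m e.1 e.2.1 e.2.2) m
  have hpay : ∀ T, pay up δ T σ τ m s₀ = payoff δ T (fun h s => ⟨σ (φ h) s, hσ _ _⟩)
      (fun h s => ⟨τ (φ h) s, hτ _ _⟩) s₀ := fun T => iSup_congr fun n => by
    rw [reach_eq]
    exact (val_sim (up := up) (σ := σ) (τ := τ) φ (fun _ _ _ _ => rfl) n [] s₀).symm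
  refine ⟨fun h s => ⟨σ (φ h) s, hσ _ _⟩, fun h s => ⟨τ (φ h) s, hτ _ _⟩, fun σ' => ?_,
    fun τ' => ?_⟩
  · rw [← hpay]
    refine ciSup_le fun n => le_trans ?_ hp₁
    rw [reach_eq]
    exact val_le_sup φ (fun _ _ _ _ => rfl) hW₁ hτ (fun h s => (σ' h s).2) n [] s₀
  · rw [← hpay]
    refine ciSup_le fun n => le_trans ?_ hp₂
    rw [reach_eq, val_swap]
    exact val_le_sup φ (fun _ _ _ _ => rfl) hW₂ hσ (fun h s => (τ' h s).2) n [] s₀

end Pool.Agent.Results.MP_0c5457_lc.NoDeadEnd
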