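import Pool.Agent.P.MP_0c5457_lc.ObsGlue

set_option autoImplicit false

namespace Pool.Agent.Results.MP_0c5457_lc.OneLottery

open Classical

variable {S M : Type} {A B : S → Type}

/-- A history: the past states with both players' actions and the past signals, most recent
first. -/
abbrev Hist (M : Type) (A B : S → Type) : Type := List (Σ s, A s × M × B s)

variable [Fintype M] [∀ s, Fintype (A s)] [∀ s, Fintype (B s)]

/-- A behavioural strategy of player 1: he sees the history and the current state, not the current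
signal. -/
def Strategy₁ (M : Type) (A B : S → Type) [∀ s, Fintype (A s)] : Type :=
  Hist M A B → ∀ s, {x : A s → ℝ // x ∈ stdSimplex ℝ (A s)}

/-- A behavioural strategy of player 2: he sees the history, the current state and the current
signal. -/
def Strategy₂ (M : Type) (A B : S → Type) [∀ s, Fintype (B s)] : Type :=
  Hist M A B → ∀ s, M → {y : B s → ℝ // y ∈ stdSimplex ℝ (B s)}

/-- Probability of visiting `T` within `n` further stages, after history `h`, in state `s`; at each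
stage a fresh signal `m` is drawn with probability `μ m`, independently of the past. -/
noncomputable def reach (δ : ∀ s, A s → B s → S) (μ : M → ℝ) (T : Set S) (σ : Strategy₁ M A B)
    (τ : Strategy₂ M A B) : ℕ → Hist M A B → S → ℝ
  | 0, _, s => if s ∈ T then 1 else 0
  | n + 1, h, s => if s ∈ T then 1 else ∑ m, ∑ a, ∑ b,
      μ m * (σ h s).1 a * (τ h s m).1 b * reach δ μ T σ τ n (⟨s, a, m, b⟩ :: h) (δ s a b)

/-- Probability that the play from `s₀` visits `T` at some stage. -/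
noncomputable def payoff (δ : ∀ s, A s → B s → S) (μ : M → ℝ) (T : Set S) (σ : Strategy₁ M A B)
    (τ : Strategy₂ M A B) (s₀ : S) : ℝ :=
  ⨆ n, reach δ μ T σ τ n [] s₀

/-- Exact Nash equilibrium from `s₀` of the game extended by the signals. -/
def IsNash (δ : ∀ s, A s → B s → S) (μ : M → ℝ) (T₁ T₂ : Set S) (s₀ : S) (σ : Strategy₁ M A B)
    (τ : Strategy₂ M A B) : Prop :=
  (∀ σ' : Strategy₁ M A B, payoff δ μ T₁ σ' τ s₀ ≤ payoff δ μ T₁ σ τ s₀) ∧
    ∀ τ' : Strategy₂ M A B, payoff δ μ T₂ σ τ' s₀ ≤ payoff δ μ T₂ σ τ s₀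

open Pool.Agent.P.MP_0c5457_lc

lemma reach_eq (δ : ∀ s, A s → B s → S) (μ : M → ℝ) (T : Set S) (σ : Strategy₁ M A B)
    (τ : Strategy₂ M A B) (n : ℕ) (h : Hist M A B) (s : S) : reach δ μ T σ τ n h s =
      val (fun h s a (q : M × B s) => ⟨s, a, q⟩ :: h) (fun s a q => δ s a q.2) T
        (fun h s => (σ h s).1) (fun h s q => μ q.1 * (τ h s q.1).1 q.2) n h s := by
  induction n generalizing h s with
  | zero => rfl
  | succ n ih =>
    simp only [reach, val, ih, Fintype.sum_prod_type]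
    rw [Finset.sum_comm]
    simp only [mul_assoc, mul_left_comm]

theorem result {S : Type} [Finite S] {A B : S → Type} [∀ s, Fintype (A s)] [∀ s, Fintype (B s)]
    [∀ s, Nonempty (A s)] [∀ s, Nonempty (B s)] (δ : ∀ s, A s → B s → S) (T₁ T₂ : Set S) :
    ∃ (M : Type) (_ : Fintype M) (μ : M → ℝ), μ ∈ stdSimplex ℝ M ∧ ∀ s₀ : S,
      ∃ (σ : Strategy₁ M A B) (τ : Strategy₂ M A B), IsNash δ μ T₁ T₂ s₀ σ τ := by
  have := Fintype.ofFinite S
  obtain ⟨μ, hμ, up, σ, τ, W₁, W₂, hσ, hτ, hW₁, hW₂, hp⟩ := cert_iid δ T₁ T₂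
  refine ⟨∀ s, B s, inferInstance, μ, hμ, fun s₀ => ?_⟩
  let φ : Hist (∀ s, B s) A B → ℕ := fun h => h.foldr (fun e m => up m e.1 e.2.1 e.2.2) 0
  have hpay : ∀ T, pay up (fun s a q => δ s a q.2) T σ (fun m s q => μ q.1 * τ m s q.1 q.2) 0 s₀ =
      payoff δ μ T (fun h s => ⟨σ (φ h) s, hσ _ _⟩) (fun h s m => ⟨τ (φ h) s m, hτ _ _ _⟩) s₀ :=
    fun T => iSup_congr fun n => ((reach_eq _ _ _ _ _ _ _ _).trans
      (val_sim (up := up) (σ := σ) (τ := fun m s q => μ q.1 * τ m s q.1 q.2) φ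
        (fun _ _ _ _ => rfl) n [] s₀)).symm
  refine ⟨fun h s => ⟨σ (φ h) s, hσ _ _⟩, fun h s m => ⟨τ (φ h) s m, hτ _ _ _⟩, fun σ' => ?_,
    fun τ' => ?_⟩
  · rw [← hpay]
    refine ciSup_le fun n => (reach_eq _ _ _ _ _ _ _ _).le.trans (le_trans ?_ (hp s₀).1)
    exact val_le_sup φ (fun _ _ _ _ => rfl) hW₁ (fun m s => sig_mem hμ (hτ m s))
      (fun h s => (σ' h s).2) n [] s₀
  · rw [← hpay]
    refine ciSup_le fun n => (reach_eq _ _ _ _ _ _ _ _).le.trans (le_trans ?_ (hp s₀).2)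
    exact val_le_sup2 φ (fun _ _ _ _ => rfl) hW₂ (fun _ => hμ) hσ (fun h s m => (τ' h s m).2)
      n [] s₀

end Pool.Agent.Results.MP_0c5457_lc.OneLottery
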