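import Mathlib

set_option autoImplicit false
set_option linter.unusedSectionVars false

namespace Pool.Agent.Results.MP_0c5457_lc.ThreePlayer

open Classical Finset Filter Topology

section General

variable {ι S : Type} {A : ι → S → Type}

/-- A history: the past states with the actions of all players, most recent first. -/
abbrev Hist (A : ι → S → Type) : Type := List (Σ s, ∀ i, A i s)

/-- A behavioural strategy of player `i`: to each history and current state it assigns a
probability vector on the current action set of `i`. -/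
def Strategy (A : ι → S → Type) [∀ i s, Fintype (A i s)] (i : ι) : Type :=
  Hist A → ∀ s, {x : A i s → ℝ // x ∈ stdSimplex ℝ (A i s)}

variable [Fintype ι] [DecidableEq ι] [∀ i s, Fintype (A i s)]

/-- Probability of visiting `T` within `n` further stages, after history `h`, in state `s`, when
the players randomise independently according to the profile `σ`. -/
noncomputable def reach (δ : ∀ s, (∀ i, A i s) → S) (T : Set S) (σ : ∀ i, Strategy A i) :
    ℕ → Hist A → S → ℝ
  | 0, _, s => if s ∈ T then 1 else 0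
  | n + 1, h, s => if s ∈ T then 1 else
      ∑ a : ∀ i, A i s, (∏ i, (σ i h s).1 (a i)) * reach δ T σ n (⟨s, a⟩ :: h) (δ s a)

/-- Probability that the play from `s₀` visits `T` at some stage. -/
noncomputable def payoff (δ : ∀ s, (∀ i, A i s) → S) (T : Set S) (σ : ∀ i, Strategy A i)
    (s₀ : S) : ℝ :=
  ⨆ n, reach δ T σ n [] s₀

/-- Exact Nash equilibrium from `s₀`, player `i` having target `T i`. -/
def IsNash (δ : ∀ s, (∀ i, A i s) → S) (T : ι → Set S) (s₀ : S) (σ : ∀ i, Strategy A i) : Prop :=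
  ∀ (i : ι) (τ : Strategy A i),
    payoff δ (T i) (Function.update σ i τ) s₀ ≤ payoff δ (T i) σ s₀

variable (δ : ∀ s, (∀ i, A i s) → S) (T : Set S)

/-- Probability of the joint action `a`. -/
noncomputable def pr (σ : ∀ i, Strategy A i) (h : Hist A) (s : S) (a : ∀ i, A i s) : ℝ :=
  ∏ i, (σ i h s).1 (a i)

lemma pr_nonneg (σ : ∀ i, Strategy A i) (h : Hist A) (s : S) (a : ∀ i, A i s) :
    0 ≤ pr σ h s a :=
  prod_nonneg fun i _ => (σ i h s).2.1 _

lemma pr_sum (σ : ∀ i, Strategy A i) (h : Hist A) (s : S) : ∑ a, pr σ h s a = 1 := by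
  have := prod_univ_sum (fun i => (univ : Finset (A i s))) (fun i b => (σ i h s).1 b)
  rw [Fintype.piFinset_univ] at this
  unfold pr
  rw [← this]
  exact prod_eq_one fun i _ => (σ i h s).2.2

lemma reach_succ (σ : ∀ i, Strategy A i) (n : ℕ) (h : Hist A) {s : S} (hs : s ∉ T) :
    reach δ T σ (n + 1) h s = ∑ a, pr σ h s a * reach δ T σ n (⟨s, a⟩ :: h) (δ s a) := by
  simp only [reach, if_neg hs, pr]

lemma reach_mem (σ : ∀ i, Strategy A i) (n : ℕ) (h : Hist A) {s : S} (hs : s ∈ T) :
    reach δ T σ n h s = 1 := by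
  cases n <;> simp only [reach, if_pos hs]

lemma reach_bd (σ : ∀ i, Strategy A i) (n : ℕ) (h : Hist A) (s : S) :
    0 ≤ reach δ T σ n h s ∧ reach δ T σ n h s ≤ 1 := by
  induction n generalizing h s with
  | zero => simp only [reach]; split_ifs <;> norm_num
  | succ n ih =>
    by_cases hs : s ∈ T
    · rw [reach_mem δ T σ _ h hs]; norm_num
    · rw [reach_succ δ T σ n h hs]
      refine ⟨sum_nonneg fun a _ => mul_nonneg (pr_nonneg σ h s a) (ih _ _).1, ?_⟩
      rw [← pr_sum σ h s]
      exact sum_le_sum fun a _ => mul_le_of_le_one_right (pr_nonneg σ h s a) (ih _ _).2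

lemma reach_le_succ (σ : ∀ i, Strategy A i) (n : ℕ) (h : Hist A) (s : S) :
    reach δ T σ n h s ≤ reach δ T σ (n + 1) h s := by
  induction n generalizing h s with
  | zero =>
    by_cases hs : s ∈ T
    · rw [reach_mem δ T σ _ h hs, reach_mem δ T σ _ h hs]
    · have := (reach_bd δ T σ 1 h s).1
      simpa only [reach, if_neg hs] using this
  | succ n ih =>
    by_cases hs : s ∈ T
    · rw [reach_mem δ T σ _ h hs, reach_mem δ T σ _ h hs]
    · rw [reach_succ δ T σ n h hs, reach_succ δ T σ (n + 1) h hs]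
      exact sum_le_sum fun a _ => mul_le_mul_of_nonneg_left (ih _ _) (pr_nonneg σ h s a)

/-- Continuation payoff after a history. -/
noncomputable def val (σ : ∀ i, Strategy A i) (h : Hist A) (s : S) : ℝ :=
  ⨆ n, reach δ T σ n h s

lemma bdd (σ : ∀ i, Strategy A i) (h : Hist A) (s : S) :
    BddAbove (Set.range fun n => reach δ T σ n h s) :=
  ⟨1, by rintro _ ⟨n, rfl⟩; exact (reach_bd δ T σ n h s).2⟩

lemma reach_le_val (σ : ∀ i, Strategy A i) (n : ℕ) (h : Hist A) (s : S) :
    reach δ T σ n h s ≤ val δ T σ h s :=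
  le_ciSup (bdd δ T σ h s) n

lemma tendsto_val (σ : ∀ i, Strategy A i) (h : Hist A) (s : S) :
    Tendsto (fun n => reach δ T σ n h s) atTop (𝓝 (val δ T σ h s)) :=
  tendsto_atTop_ciSup (monotone_nat_of_le_succ fun n => reach_le_succ δ T σ n h s) (bdd δ T σ h s)

lemma val_step (σ : ∀ i, Strategy A i) (h : Hist A) {s : S} (hs : s ∉ T) :
    val δ T σ h s = ∑ a, pr σ h s a * val δ T σ (⟨s, a⟩ :: h) (δ s a) := by
  have h1 := (tendsto_val δ T σ h s).comp (tendsto_add_atTop_nat 1)
  have h2 : Tendsto (fun n => ∑ a, pr σ h s a * reach δ T σ n (⟨s, a⟩ :: h) (δ s a)) atTop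
      (𝓝 (∑ a, pr σ h s a * val δ T σ (⟨s, a⟩ :: h) (δ s a))) :=
    tendsto_finsetSum _ fun a _ => (tendsto_val δ T σ _ _).const_mul _
  refine tendsto_nhds_unique h1 (h2.congr fun n => ?_)
  exact (reach_succ δ T σ n h hs).symm

lemma reach_local {σ σ' : ∀ i, Strategy A i} (n : ℕ) (h : Hist A) (s : S)
    (H : ∀ i g, h <:+ g → σ i g = σ' i g) : reach δ T σ n h s = reach δ T σ' n h s := by
  induction n generalizing h s with
  | zero => rfl
  | succ n ih =>
    simp only [reach]
    congr 1
    refine sum_congr rfl fun a _ => ?_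
    rw [ih _ _ fun i g hg => H i g ((List.suffix_cons _ _).trans hg)]
    congr 1
    exact prod_congr rfl fun i _ => by rw [H i h List.suffix_rfl]

lemma val_local {σ σ' : ∀ i, Strategy A i} (h : Hist A) (s : S)
    (H : ∀ i g, h <:+ g → σ i g = σ' i g) : val δ T σ h s = val δ T σ' h s :=
  iSup_congr fun n => reach_local δ T n h s H

/-- Player `i` cannot gain after history `h` in state `s`. -/
def Opt (σ : ∀ i, Strategy A i) (i : ι) (h : Hist A) (s : S) : Prop :=
  ∀ τ : Strategy A i, val δ T (Function.update σ i τ) h s ≤ val δ T σ h s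

lemma not_suffix_self {α : Type} (e : α) (h : List α) : ¬ (e :: h) <:+ h := fun k => by
  have := k.length_le
  simp at this

lemma suffix_unique {α : Type} {e e' : α} {h g : List α} (k : (e :: h) <:+ g)
    (k' : (e' :: h) <:+ g) : e = e' := by
  have := (List.suffix_of_suffix_length_le k k' (by simp)).eq_of_length (by simp)
  exact (List.cons.inj this).1

lemma update_congr {σ : ∀ i, Strategy A i} {i : ι} {τ τ' : Strategy A i} {g : Hist A}
    (H : τ g = τ' g) (k : ι) : Function.update σ i τ k g = Function.update σ i τ' k g := by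
  by_cases hk : k = i
  · subst hk; simp only [Function.update_self, H]
  · simp only [Function.update_of_ne hk]

lemma Opt.child {σ : ∀ i, Strategy A i} {i : ι} {h : Hist A} {s : S} (H : Opt δ T σ i h s)
    (hs : s ∉ T) {a : ∀ i, A i s} (ha : 0 < pr σ h s a) :
    Opt δ T σ i (⟨s, a⟩ :: h) (δ s a) := by
  intro τ
  let τ' : Strategy A i := fun g => if (⟨s, a⟩ :: h) <:+ g then τ g else σ i g
  have key := H τ'
  have out : ∀ g, ¬ (⟨s, a⟩ :: h) <:+ g → ∀ k, Function.update σ i τ' k g = σ k g := by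
    intro g hg k
    rw [update_congr (τ' := σ i) (if_neg hg) k, Function.update_eq_self]
  have hp : ∀ b, pr (Function.update σ i τ') h s b = pr σ h s b := fun b =>
    prod_congr rfl fun k _ => by rw [out h (not_suffix_self _ _) k]
  rw [val_step δ T _ h hs, val_step δ T _ h hs, ← sum_erase_add _ _ (mem_univ a),
    ← sum_erase_add _ _ (mem_univ a)] at key
  have e1 : ∑ b ∈ univ.erase a, pr (Function.update σ i τ') h s b *
      val δ T (Function.update σ i τ') (⟨s, b⟩ :: h) (δ s b) =
      ∑ b ∈ univ.erase a, pr σ h s b * val δ T σ (⟨s, b⟩ :: h) (δ s b) := by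
    refine sum_congr rfl fun b hb => ?_
    rw [hp, val_local δ T _ _ fun k g hg => out g (fun hg' => ?_) k]
    have := suffix_unique hg hg'
    exact (mem_erase.1 hb).1 (eq_of_heq (Sigma.mk.inj this).2)
  have e2 : val δ T (Function.update σ i τ') (⟨s, a⟩ :: h) (δ s a) =
      val δ T (Function.update σ i τ) (⟨s, a⟩ :: h) (δ s a) :=
    val_local δ T _ _ fun k g hg => update_congr (if_pos hg) k
  rw [e1, e2, hp] at key
  exact le_of_mul_le_mul_left (by linarith) ha

end General

section Game

/-- States: the hub, one lottery for each set of quitters, one winning state for each player. -/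
abbrev St : Type := Option ((Fin 3 → Bool) ⊕ Fin 3)

/-- Every player has six actions in every state. -/
abbrev Ac : Fin 3 → St → Type := fun _ _ => ZMod 6

/-- Number of lottery tickets (out of six) of player `i` when the players in `Q` quit. -/
def sh (Q : Fin 3 → Bool) (i : Fin 3) : ℕ :=
  if Q i then (if Q (i + 1) then 2 else 1)
  else if Q (i + 2) then (if Q (i + 1) then 3 else 5) else (if Q (i + 1) then 0 else 2)

/-- Owner of ticket `c`. -/
def win (Q : Fin 3 → Bool) (c : ZMod 6) : Fin 3 :=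
  if c.val < sh Q 0 then 0 else if c.val < sh Q 0 + sh Q 1 then 1 else 2

/-- The set of quitters. -/
def qt (a : Fin 3 → ZMod 6) : Fin 3 → Bool := fun k => decide (a k ≠ 0)

/-- Transitions. -/
def dl : ∀ s : St, (∀ i, Ac i s) → St
  | none, a => if a = 0 then none else some (Sum.inl (qt a))
  | some (Sum.inl Q), a => some (Sum.inr (win Q (∑ k, a k)))
  | some (Sum.inr k), _ => some (Sum.inr k)

/-- Targets. -/
def tg (i : Fin 3) : Set St := {some (Sum.inr i)}

lemma win_count (Q : Fin 3 → Bool) (i : Fin 3) :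
    (univ.filter fun c : ZMod 6 => win Q c = i).card = sh Q i := by
  revert Q i; decide

lemma sh_sum (Q : Fin 3 → Bool) : ∑ i, sh Q i = 6 := by
  revert Q; decide

lemma val_win (σ : ∀ i, Strategy Ac i) (i k : Fin 3) (h : Hist Ac) :
    val dl (tg i) σ h (some (Sum.inr k)) = if k = i then 1 else 0 := by
  have : ∀ n h, reach dl (tg i) σ n h (some (Sum.inr k)) = if k = i then 1 else 0 := by
    intro n
    by_cases hk : k = i
    · intro h
      rw [if_pos hk, reach_mem]
      simp [tg, hk]
    · have hs : (some (Sum.inr k) : St) ∉ tg i := by simp [tg, hk]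
      induction n with
      | zero => intro h; simp only [reach, if_neg hs, if_neg hk]
      | succ n ih =>
        intro h
        rw [reach_succ _ _ _ _ _ hs, if_neg hk]
        refine sum_eq_zero fun a _ => ?_
        have := ih (⟨some (Sum.inr k), a⟩ :: h)
        rw [if_neg hk] at this
        simp only [dl, this, mul_zero]
  simp only [val, this, ciSup_const]

lemma val_lot (σ : ∀ i, Strategy Ac i) (i : Fin 3) (Q : Fin 3 → Bool) (h : Hist Ac) :
    val dl (tg i) σ h (some (Sum.inl Q)) =
      ∑ a, pr σ h (some (Sum.inl Q)) a * if win Q (∑ k, a k) = i then 1 else 0 := by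
  rw [val_step _ _ _ _ (by simp [tg])]
  exact sum_congr rfl fun a _ => by simp only [dl, val_win]

lemma val_lot_sum (σ : ∀ i, Strategy Ac i) (Q : Fin 3 → Bool) (h : Hist Ac) :
    ∑ i, val dl (tg i) σ h (some (Sum.inl Q)) = 1 := by
  simp only [val_lot]
  rw [sum_comm]
  refine Eq.trans (sum_congr rfl fun a _ => ?_) (pr_sum σ h (some (Sum.inl Q)))
  rw [← mul_sum]
  simp

/-- The uniform mixed action. -/
noncomputable def unif : {x : ZMod 6 → ℝ // x ∈ stdSimplex ℝ (ZMod 6)} :=
  ⟨fun _ => 1 / 6, fun _ => by norm_num, by simp⟩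

lemma val_unif (σ : ∀ i, Strategy Ac i) (i : Fin 3) (Q : Fin 3 → Bool) (h : Hist Ac)
    (H : σ i h (some (Sum.inl Q)) = unif) :
    val dl (tg i) σ h (some (Sum.inl Q)) = sh Q i / 6 := by
  have shift : ∀ c : ZMod 6, val dl (tg i) σ h (some (Sum.inl Q)) =
      ∑ a : Fin 3 → ZMod 6, pr σ h (some (Sum.inl Q)) a *
        if win Q (∑ k, a k + c) = i then 1 else 0 := by
    intro c
    rw [val_lot]
    refine (Equiv.sum_comp (Equiv.addRight (Pi.single i c : Fin 3 → ZMod 6)) _).symm.trans
      (sum_congr rfl fun a _ => ?_)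
    have e1 : ∑ k, (Equiv.addRight (Pi.single i c : Fin 3 → ZMod 6) a) k = ∑ k, a k + c := by
      simp [sum_add_distrib]
    rw [e1]
    congr 1
    refine prod_congr rfl fun k _ => ?_
    by_cases hk : k = i
    · subst hk; rw [H]; rfl
    · simp [Pi.single_eq_of_ne hk]
  have tot : ∑ c : ZMod 6, val dl (tg i) σ h (some (Sum.inl Q)) = sh Q i := by
    rw [sum_congr rfl fun c _ => shift c, sum_comm]
    have : ∀ a : Fin 3 → ZMod 6, ∑ c : ZMod 6, (pr σ h (some (Sum.inl Q)) a *
        if win Q (∑ k, a k + c) = i then (1 : ℝ) else 0) =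
        pr σ h (some (Sum.inl Q)) a * sh Q i := by
      intro a
      rw [← mul_sum]
      congr 1
      refine (Equiv.sum_comp (Equiv.addLeft (∑ k, a k))
        (fun c => if win Q c = i then (1 : ℝ) else 0)).trans ?_
      rw [sum_boole, win_count]
    rw [sum_congr rfl fun a _ => this a, ← sum_mul]
    exact (congrArg (· * (sh Q i : ℝ)) (pr_sum σ h (some (Sum.inl Q)))).trans (one_mul _)
  rw [sum_const, card_univ, ZMod.card, nsmul_eq_mul] at tot
  rw [← tot]; push_cast; ring

lemma val_opt (σ : ∀ i, Strategy Ac i) (Q : Fin 3 → Bool) (h : Hist Ac)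
    (H : ∀ i, Opt dl (tg i) σ i h (some (Sum.inl Q))) (i : Fin 3) :
    val dl (tg i) σ h (some (Sum.inl Q)) = sh Q i / 6 := by
  have ge : ∀ k ∈ (univ : Finset (Fin 3)),
      (sh Q k : ℝ) / 6 ≤ val dl (tg k) σ h (some (Sum.inl Q)) := fun k _ => by
    let τ : Strategy Ac k := fun _ _ => unif
    have := H k τ
    rwa [val_unif _ _ _ _ (by rw [Function.update_self])] at this
  have s : ∑ k, (sh Q k : ℝ) / 6 = ∑ k, val dl (tg k) σ h (some (Sum.inl Q)) := by
    rw [val_lot_sum, ← sum_div, ← Nat.cast_sum, sh_sum]; norm_num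
  exact ((sum_eq_sum_iff_of_le ge).1 s i (mem_univ i)).symm

/-- Payoff of continuing, given the continuation probabilities and the continuation payoff. -/
noncomputable def Cv (i : Fin 3) (c : Fin 3 → ℝ) (G : ℝ) : ℝ :=
  c (i + 2) * c (i + 1) * G + 5 / 6 * ((1 - c (i + 2)) * c (i + 1)) +
    3 / 6 * ((1 - c (i + 2)) * (1 - c (i + 1)))

/-- Payoff of quitting. -/
noncomputable def Qv (i : Fin 3) (c : Fin 3 → ℝ) : ℝ := (2 - c (i + 1)) / 6

lemma agg (y : Fin 3 → ZMod 6 → ℝ) (hy : ∀ k, ∑ b, y k b = 1) (f : (Fin 3 → Bool) → ℝ) :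
    ∑ a : Fin 3 → ZMod 6, (∏ k, y k (a k)) * f (qt a) =
      ∑ Q : Fin 3 → Bool, (∏ k, if Q k then 1 - y k 0 else y k 0) * f Q := by
  rw [← sum_fiberwise_of_maps_to (s := univ) (t := univ) (g := qt) fun _ _ => mem_univ _]
  refine sum_congr rfl fun Q _ => ?_
  have e : univ.filter (fun a => qt a = Q) =
      Fintype.piFinset fun k => univ.filter fun b : ZMod 6 => decide (b ≠ 0) = Q k := by
    ext a; simp [qt, funext_iff]
  rw [sum_congr rfl fun a ha => by rw [(mem_filter.1 ha).2], ← sum_mul, e, ← prod_univ_sum]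
  congr 1
  refine prod_congr rfl fun k _ => ?_
  cases Q k
  · have : (univ.filter fun b : ZMod 6 => decide (b ≠ 0) = false) = {0} := by decide
    rw [this]; simp
  · have : (univ.filter fun b : ZMod 6 => decide (b ≠ 0) = true) = univ.erase 0 := by decide
    rw [this, sum_erase_eq_sub (mem_univ _), hy]; simp

lemma sum8 (g : (Fin 3 → Bool) → ℝ) : ∑ Q, g Q =
    g ![false, false, false] + (g ![true, false, false] + (g ![false, true, false] +
      (g ![false, false, true] + (g ![true, true, false] + (g ![true, false, true] +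
      (g ![false, true, true] + g ![true, true, true])))))) := by
  have : (univ : Finset (Fin 3 → Bool)) = {![false, false, false], ![true, false, false],
      ![false, true, false], ![false, false, true], ![true, true, false], ![true, false, true],
      ![false, true, true], ![true, true, true]} := by decide
  rw [this, sum_insert (by decide), sum_insert (by decide), sum_insert (by decide),
    sum_insert (by decide), sum_insert (by decide), sum_insert (by decide),
    sum_insert (by decide), sum_singleton]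

lemma hub_sum (y : Fin 3 → ZMod 6 → ℝ) (hy : ∀ k, ∑ b, y k b = 1) (i : Fin 3) (G : ℝ) :
    ∑ a : Fin 3 → ZMod 6, (∏ k, y k (a k)) * (if a = 0 then G else (sh (qt a) i : ℝ) / 6) =
      y i 0 * Cv i (fun k => y k 0) G + (1 - y i 0) * Qv i (fun k => y k 0) := by
  have e : ∀ a : Fin 3 → ZMod 6, (if a = 0 then G else (sh (qt a) i : ℝ) / 6) =
      (fun Q => if Q = ![false, false, false] then G else (sh Q i : ℝ) / 6) (qt a) := by
    intro a
    have : a = 0 ↔ qt a = ![false, false, false] := by
      simp [qt, funext_iff, Fin.forall_fin_succ]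
    simp only [this]
  rw [sum_congr rfl fun a _ => by rw [e a]]
  refine (agg y hy fun Q => if Q = ![false, false, false] then G else (sh Q i : ℝ) / 6).trans ?_
  rw [sum8]
  fin_cases i <;> simp [sh, Fin.prod_univ_three, Cv, Qv] <;> ring

/-- The history after one more stage in which everybody continued. -/
def nx (h : Hist Ac) : Hist Ac := ⟨none, (0 : Fin 3 → ZMod 6)⟩ :: h

/-- Probabilities of continuing. -/
noncomputable def cp (σ : ∀ i, Strategy Ac i) (h : Hist Ac) : Fin 3 → ℝ :=
  fun k => (σ k h none).1 0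

lemma cp_bd (σ : ∀ i, Strategy Ac i) (h : Hist Ac) (k : Fin 3) :
    0 ≤ cp σ h k ∧ cp σ h k ≤ 1 :=
  mem_Icc_of_mem_stdSimplex (σ k h none).2 0

lemma hub_notin (i : Fin 3) : (none : St) ∉ tg i := by simp [tg]

lemma hub_form (σ : ∀ i, Strategy Ac i) (i : Fin 3) (h : Hist Ac)
    (H : ∀ a : Fin 3 → ZMod 6, a ≠ 0 → 0 < pr σ h none a →
      val dl (tg i) σ (⟨none, a⟩ :: h) (some (Sum.inl (qt a))) = sh (qt a) i / 6) :
    val dl (tg i) σ h none = cp σ h i * Cv i (cp σ h) (val dl (tg i) σ (nx h) none) +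
      (1 - cp σ h i) * Qv i (cp σ h) := by
  rw [val_step _ _ _ _ (hub_notin i)]
  refine Eq.trans (sum_congr rfl fun a _ => ?_)
    (hub_sum (fun k => (σ k h none).1) (fun k => (σ k h none).2.2) i _)
  change pr σ h none a * _ = pr σ h none a * _
  by_cases ha : a = 0
  · subst ha
    simp only [dl, if_true]
    rfl
  · simp only [dl, if_neg ha]
    rcases (pr_nonneg σ h none a).eq_or_lt with h0 | h0
    · rw [← h0, zero_mul, zero_mul]
    · rw [H a ha h0]

/-- Play `b` now, follow `ρ` if everybody continued, and play uniformly otherwise. -/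
noncomputable def dev (h : Hist Ac) (b : ZMod 6) {i : Fin 3} (ρ : Strategy Ac i) :
    Strategy Ac i :=
  fun g s => if g = h then ⟨Pi.single b 1, single_mem_stdSimplex ℝ b⟩
    else if nx h <:+ g then ρ g s else unif

lemma val_dev (σ : ∀ i, Strategy Ac i) (i : Fin 3) (h : Hist Ac) (b : ZMod 6)
    (ρ : Strategy Ac i) :
    val dl (tg i) (Function.update σ i (dev h b ρ)) h none =
      if b = 0 then Cv i (cp σ h) (val dl (tg i) (Function.update σ i ρ) (nx h) none)
      else Qv i (cp σ h) := by
  have n1 : i + 1 ≠ i := (by decide : ∀ j : Fin 3, j + 1 ≠ j) i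
  have n2 : i + 2 ≠ i := (by decide : ∀ j : Fin 3, j + 2 ≠ j) i
  rw [hub_form]
  · have e0 : cp (Function.update σ i (dev h b ρ)) h i = if b = 0 then 1 else 0 := by
      simp only [cp, Function.update_self, dev, if_true, Pi.single_apply, eq_comm]
    have e1 : cp (Function.update σ i (dev h b ρ)) h (i + 1) = cp σ h (i + 1) := by
      simp only [cp, Function.update_of_ne n1]
    have e2 : cp (Function.update σ i (dev h b ρ)) h (i + 2) = cp σ h (i + 2) := by
      simp only [cp, Function.update_of_ne n2]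
    have e3 : val dl (tg i) (Function.update σ i (dev h b ρ)) (nx h) none =
        val dl (tg i) (Function.update σ i ρ) (nx h) none := by
      refine val_local _ _ _ _ fun k g hg => update_congr (funext fun s => ?_) k
      have : g ≠ h := fun e => not_suffix_self _ _ (e ▸ hg)
      simp only [dev, if_neg this, if_pos hg]
    simp only [Cv, Qv, e0, e1, e2, e3]
    split_ifs <;> ring
  · intro a ha _
    apply val_unif
    have k1 : (⟨none, a⟩ :: h : Hist Ac) ≠ h := List.cons_ne_self _ _
    have k2 : ¬ nx h <:+ (⟨none, a⟩ :: h : Hist Ac) := fun k =>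
      ha (eq_of_heq (Sigma.mk.inj (suffix_unique List.suffix_rfl k)).2)
    simp only [Function.update_self, dev, if_neg k1, if_neg k2]

/-- Nobody can gain at the hub after history `h`. -/
def Eqm (σ : ∀ i, Strategy Ac i) (h : Hist Ac) : Prop := ∀ i, Opt dl (tg i) σ i h none

variable {σ : ∀ i, Strategy Ac i} {h : Hist Ac}

lemma Eqm.lot (E : Eqm σ h) (i : Fin 3) (a : Fin 3 → ZMod 6) (ha : a ≠ 0)
    (h0 : 0 < pr σ h none a) :
    val dl (tg i) σ (⟨none, a⟩ :: h) (some (Sum.inl (qt a))) = sh (qt a) i / 6 := by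
  refine val_opt σ _ _ (fun k => ?_) i
  have := (E k).child _ _ (hub_notin k) h0
  simpa only [dl, if_neg ha] using this

lemma Eqm.form (E : Eqm σ h) (i : Fin 3) :
    val dl (tg i) σ h none = cp σ h i * Cv i (cp σ h) (val dl (tg i) σ (nx h) none) +
      (1 - cp σ h i) * Qv i (cp σ h) :=
  hub_form σ i h (E.lot i)

lemma Eqm.quit (E : Eqm σ h) (i : Fin 3) : Qv i (cp σ h) ≤ val dl (tg i) σ h none := by
  have := E i (dev h 1 (σ i))
  rwa [val_dev, if_neg (by decide)] at this

lemma Eqm.cont (E : Eqm σ h) (i : Fin 3) :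
    Cv i (cp σ h) (val dl (tg i) σ (nx h) none) ≤ val dl (tg i) σ h none := by
  have := E i (dev h 0 (σ i))
  rwa [val_dev, if_pos rfl, Function.update_eq_self] at this

lemma Eqm.late (E : Eqm σ h) (i : Fin 3) : Cv i (cp σ h) (1 / 6) ≤ val dl (tg i) σ h none := by
  have := E i (dev h 0 (dev (nx h) 1 (σ i)))
  rw [val_dev, if_pos rfl, val_dev, if_neg (by decide)] at this
  refine le_trans ?_ this
  have b := (cp_bd σ (nx h) (i + 1)).2
  have c := mul_nonneg (cp_bd σ h (i + 2)).1 (cp_bd σ h (i + 1)).1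
  simp only [Cv, Qv]
  nlinarith

lemma Eqm.active (E : Eqm σ h) {i : Fin 3} (hi : cp σ h i < 1) :
    val dl (tg i) σ h none = Qv i (cp σ h) := by
  have a := E.form i
  have b := mul_le_mul_of_nonneg_left (E.cont i) (cp_bd σ h i).1
  refine le_antisymm (le_of_mul_le_mul_left ?_ (sub_pos.2 hi)) (E.quit i)
  linarith

lemma Eqm.ratio (E : Eqm σ h) {i : Fin 3} (hi : cp σ h i < 1) :
    3 * (1 - cp σ h (i + 2)) ≤ 2 * (1 - cp σ h (i + 1)) := by
  have a := E.late i
  rw [E.active hi] at a
  have b := mul_nonneg (sub_nonneg.2 (cp_bd σ h (i + 2)).2) (cp_bd σ h (i + 1)).1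
  simp only [Cv, Qv] at a
  nlinarith

lemma p11 (j : Fin 3) : j + 1 + 1 = j + 2 := by revert j; decide
lemma p12 (j : Fin 3) : j + 1 + 2 = j := by revert j; decide
lemma p21 (j : Fin 3) : j + 2 + 1 = j := by revert j; decide
lemma p22 (j : Fin 3) : j + 2 + 2 = j + 1 := by revert j; decide

lemma Eqm.alone (E : Eqm σ h) {j : Fin 3} (hj : cp σ h j < 1) :
    cp σ h (j + 1) = 1 ∧ cp σ h (j + 2) = 1 := by
  have r0 := E.ratio hj
  have b1 := (cp_bd σ h (j + 1)).2
  have b2 := (cp_bd σ h (j + 2)).2
  have e1 : cp σ h (j + 1) = 1 := by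
    by_contra ne
    have r1 := E.ratio (lt_of_le_of_ne b1 ne)
    rw [p11, p12] at r1
    have r2 := E.ratio (show cp σ h (j + 2) < 1 by linarith)
    rw [p21, p22] at r2
    linarith
  exact ⟨e1, by linarith⟩

lemma Eqm.pos (E : Eqm σ h) (j : Fin 3) : 0 < cp σ h j := by
  by_contra k
  have z : cp σ h j = 0 := le_antisymm (not_lt.1 k) (cp_bd σ h j).1
  obtain ⟨e1, e2⟩ := E.alone (j := j) (by linarith)
  have a := E.form (j + 2)
  have b := E.quit (j + 2)
  simp only [Cv, Qv, p21, p22, z, e1, e2] at a b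
  linarith

lemma Eqm.next (E : Eqm σ h) : Eqm σ (nx h) := fun i => by
  have := (E i).child _ _ (hub_notin i) (a := (0 : Fin 3 → ZMod 6))
    (prod_pos fun k _ => E.pos k)
  simpa only [dl, if_true, nx] using this

lemma Eqm.stay (E : Eqm σ h) {j : Fin 3} (hj : val dl (tg j) σ h none = 1 / 6) :
    cp σ h (j + 1) = 1 ∧ cp σ h (j + 2) = 1 ∧ val dl (tg j) σ (nx h) none = 1 / 6 := by
  have b1 := (cp_bd σ h (j + 1)).2
  have b2 := (cp_bd σ h (j + 2)).2
  have e1 : cp σ h (j + 1) = 1 := by
    have := E.quit j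
    simp only [Qv] at this
    linarith
  have e2 : cp σ h (j + 2) = 1 := by
    have := E.late j
    simp only [Cv, e1] at this
    linarith
  refine ⟨e1, e2, ?_⟩
  have a := E.form j
  simp only [Cv, Qv, e1, e2] at a
  refine mul_left_cancel₀ (E.pos j).ne' ?_
  linarith

lemma starve (j : Fin 3) (N : ℕ) : ∀ h : Hist Ac, (∀ n, Eqm σ (nx^[n] h) ∧
    cp σ (nx^[n] h) (j + 1) = 1 ∧ cp σ (nx^[n] h) (j + 2) = 1) →
    reach dl (tg (j + 2)) σ N h none ≤ 0 := by
  induction N with
  | zero => intro h _; simp only [reach, if_neg (hub_notin _), le_refl]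
  | succ N ih =>
    intro h H
    obtain ⟨E, e1, e2⟩ := H 0
    have z := ih (nx h) fun n => H (n + 1)
    have s := hub_sum (fun k => (σ k h none).1) (fun k => (σ k h none).2.2) (j + 2) 0
    have s0 : cp σ h (j + 2) * Cv (j + 2) (cp σ h) 0 +
        (1 - cp σ h (j + 2)) * Qv (j + 2) (cp σ h) = 0 := by
      simp only [Function.iterate_zero, id] at e1 e2
      simp only [Cv, p22, e1, e2]
      ring
    rw [reach_succ _ _ _ _ _ (hub_notin _)]
    refine le_trans (sum_le_sum fun a _ => ?_) (s.trans s0).le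
    change pr σ h none a * _ ≤ pr σ h none a * _
    rcases (pr_nonneg σ h none a).eq_or_lt with h0 | h0
    · rw [← h0, zero_mul, zero_mul]
    refine mul_le_mul_of_nonneg_left ?_ h0.le
    by_cases ha : a = 0
    · subst ha
      simp only [dl, if_true]
      exact z
    · simp only [dl, if_neg ha]
      exact (reach_le_val _ _ _ _ _ _).trans (Eqm.lot E _ a ha h0).le

lemma Eqm.iter (E : Eqm σ h) (n : ℕ) : Eqm σ (nx^[n] h) := by
  induction n with
  | zero => exact E
  | succ n ih => rw [Function.iterate_succ_apply']; exact ih.next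

lemma not_eqm (σ : ∀ i, Strategy Ac i) (h : Hist Ac) : ¬ Eqm σ h := fun E => by
  obtain ⟨g, j, Eg, H⟩ : ∃ g j, Eqm σ g ∧ ∀ n,
      cp σ (nx^[n] g) (j + 1) = 1 ∧ cp σ (nx^[n] g) (j + 2) = 1 := by
    by_cases act : ∃ m j, cp σ (nx^[m] h) j < 1
    · obtain ⟨m, j, hj⟩ := act
      have Eg := E.iter m
      have v : ∀ n, val dl (tg j) σ (nx^[n] (nx^[m] h)) none = 1 / 6 := by
        intro n
        induction n with
        | zero =>
          have := Eg.active hj
          simp only [Qv, (Eg.alone hj).1] at this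
          simp only [Function.iterate_zero, id]
          linarith
        | succ n ih => rw [Function.iterate_succ_apply']; exact ((Eg.iter n).stay ih).2.2
      exact ⟨_, j, Eg, fun n => ⟨((Eg.iter n).stay (v n)).1, ((Eg.iter n).stay (v n)).2.1⟩⟩
    · push Not at act
      exact ⟨h, 0, E, fun n => ⟨le_antisymm (cp_bd _ _ _).2 (act _ _),
        le_antisymm (cp_bd _ _ _).2 (act _ _)⟩⟩
  have z : val dl (tg (j + 2)) σ g none ≤ 0 :=
    ciSup_le fun N => starve j N g fun n => ⟨Eg.iter n, H n⟩
  have q := Eg.quit (j + 2)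
  have b := (cp_bd σ g (j + 2 + 1)).2
  simp only [Qv] at q
  linarith

end Game

theorem result : ∃ (S : Type) (_ : Finite S) (A : Fin 3 → S → Type)
    (_ : ∀ i s, Fintype (A i s)) (_ : ∀ i s, Nonempty (A i s))
    (δ : ∀ s, (∀ i, A i s) → S) (T : Fin 3 → Set S) (s₀ : S),
    (∀ i, ∀ s ∈ T i, ∀ a, δ s a = s) ∧ (∀ i j, i ≠ j → Disjoint (T i) (T j)) ∧
    (∀ s, s ≠ s₀ → ∀ a, ∃ i, δ s a ∈ T i) ∧ (∃ a, δ s₀ a ≠ s₀) ∧
    ∀ σ : ∀ i, Strategy A i, ¬ IsNash δ T s₀ σ := by
  refine ⟨St, inferInstance, Ac, inferInstance, inferInstance, dl, tg, none, ?_, ?_, ?_, ?_,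
    fun σ H => not_eqm σ [] H⟩
  · rintro i s rfl a; rfl
  · intro i j hij
    simpa [tg] using hij
  · rintro (_ | Q | k) hs a
    · exact absurd rfl hs
    · exact ⟨_, rfl⟩
    · exact ⟨k, rfl⟩
  · refine ⟨fun _ => 1, ?_⟩
    have : (fun _ => 1 : Fin 3 → ZMod 6) ≠ 0 := by decide
    simp [dl, this]

end Pool.Agent.Results.MP_0c5457_lc.ThreePlayer
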